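import Pool.Agent.Work.MP_39d092_co.LDFinal

/-!
# Piecewise divisible functions: the fourth moment inequality
-/

set_option autoImplicit false

namespace Pool.Agent.Work.MP_39d092_co.PD

open Finset Matrix
open Pool.MP_39d092_co.LD

section

variable {n c : ℕ} (F : V n → V n) (L : V n → V c)

/-- the character of `(x, F x)` -/
def ch (v u x : V n) : ℤ := sg (v ⬝ᵥ F x + u ⬝ᵥ x)

/-- the partial sum over the fibre `t` of `L` -/
def P (v u : V n) (t : V c) : ℤ := ∑ x, if L x = t then ch F v u x else 0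

/-- the sum of the squares of the partial sums -/
def S (v u : V n) : ℤ := ∑ t, P F L v u t ^ 2

/-- indicator of `L a = L b` -/
def e (a b : V n) : ℤ := if L a = L b then 1 else 0

/-- the total of the products of four characters -/
def g (a b c d : V n) : ℤ := ∑ v, ∑ u, ch F v u a * ch F v u b * ch F v u c * ch F v u d

theorem e_nonneg (a b : V n) : 0 ≤ e L a b := by
  unfold e; split_ifs <;> norm_num

theorem e_le (a b : V n) : e L a b ≤ 1 := by
  unfold e; split_ifs <;> norm_num

theorem W_eq (v u : V n) : W (fun x => v ⬝ᵥ F x) u = ∑ x, ch F v u x := rfl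

theorem W_eq_P (v u : V n) : W (fun x => v ⬝ᵥ F x) u = ∑ t, P F L v u t := by
  rw [W_eq]
  unfold P
  rw [Finset.sum_comm]
  refine Finset.sum_congr rfl fun x _ => ?_
  rw [Finset.sum_ite_eq]
  simp

theorem g_eq (a b c d : V n) : g F a b c d =
    if a + b + c + d = 0 ∧ F a + F b + F c + F d = 0 then (2 : ℤ) ^ n * 2 ^ n else 0 := by
  unfold g ch
  have h1 : ∀ v u : V n, sg (v ⬝ᵥ F a + u ⬝ᵥ a) * sg (v ⬝ᵥ F b + u ⬝ᵥ b) *
      sg (v ⬝ᵥ F c + u ⬝ᵥ c) * sg (v ⬝ᵥ F d + u ⬝ᵥ d) =
      sg ((F a + F b + F c + F d) ⬝ᵥ v) * sg ((a + b + c + d) ⬝ᵥ u) := by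
    intro v u
    rw [dotProduct_comm _ v, dotProduct_comm _ u, ← sg_add, ← sg_add, ← sg_add, ← sg_add]
    congr 1
    simp only [dotProduct_add]
    ring
  simp_rw [h1]
  simp_rw [← Finset.mul_sum]
  rw [← Finset.sum_mul, char_sum, char_sum]
  by_cases h2 : F a + F b + F c + F d = 0
  · by_cases h3 : a + b + c + d = 0
    · rw [if_pos h2, if_pos h3, if_pos ⟨h3, h2⟩]
    · rw [if_pos h2, if_neg h3, if_neg (fun h => h3 h.1), mul_zero]
  · rw [if_neg h2, zero_mul, if_neg (fun h => h2 h.2)]

theorem g_nonneg (a b c d : V n) : 0 ≤ g F a b c d := by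
  rw [g_eq]; split_ifs <;> positivity

theorem g_triv (a c : V n) : g F a a c c = (2 : ℤ) ^ n * 2 ^ n := by
  rw [g_eq, if_pos]
  refine ⟨?_, ?_⟩
  · rw [vadd_self, zero_add, vadd_self]
  · rw [vadd_self, zero_add, vadd_self]

theorem g_swap23 (a b c d : V n) : g F a c b d = g F a b c d := by
  unfold g
  exact Finset.sum_congr rfl fun v _ => Finset.sum_congr rfl fun u _ => by ring

theorem g_swap24 (a b c d : V n) : g F a d c b = g F a b c d := by
  unfold g
  exact Finset.sum_congr rfl fun v _ => Finset.sum_congr rfl fun u _ => by ring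

/-- weighted sum over quadruples -/
def Q (w : V n → V n → V n → V n → ℤ) : ℤ := ∑ a, ∑ b, ∑ c, ∑ d, w a b c d * g F a b c d

theorem Q_of (w : V n → V n → V n → V n → ℤ) (X : V n → V n → ℤ)
    (h : ∀ v u, X v u = ∑ a, ∑ b, ∑ c, ∑ d,
      w a b c d * (ch F v u a * ch F v u b * ch F v u c * ch F v u d)) :
    ∑ v, ∑ u, X v u = Q F w := by
  unfold Q g
  simp_rw [h, Finset.mul_sum]
  calc ∑ v, ∑ u, ∑ a, ∑ b, ∑ c, ∑ d,
        w a b c d * (ch F v u a * ch F v u b * ch F v u c * ch F v u d)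
      = ∑ p : V n × V n, ∑ q : V n × V n × V n × V n, w q.1 q.2.1 q.2.2.1 q.2.2.2 *
        (ch F p.1 p.2 q.1 * ch F p.1 p.2 q.2.1 * ch F p.1 p.2 q.2.2.1 * ch F p.1 p.2 q.2.2.2) := by
        rw [Fintype.sum_prod_type]
        refine Finset.sum_congr rfl fun v _ => Finset.sum_congr rfl fun u _ => ?_
        simp_rw [Fintype.sum_prod_type]
    _ = ∑ q : V n × V n × V n × V n, ∑ p : V n × V n, w q.1 q.2.1 q.2.2.1 q.2.2.2 *
        (ch F p.1 p.2 q.1 * ch F p.1 p.2 q.2.1 * ch F p.1 p.2 q.2.2.1 * ch F p.1 p.2 q.2.2.2) :=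
        Finset.sum_comm
    _ = _ := by
        simp_rw [Fintype.sum_prod_type]

theorem Q_mono (w w' : V n → V n → V n → V n → ℤ) (h : ∀ a b c d, w a b c d ≤ w' a b c d) :
    Q F w ≤ Q F w' :=
  Finset.sum_le_sum fun a _ => Finset.sum_le_sum fun b _ => Finset.sum_le_sum fun c _ =>
    Finset.sum_le_sum fun d _ => mul_le_mul_of_nonneg_right (h a b c d) (g_nonneg F a b c d)

theorem Q_add (w w' : V n → V n → V n → V n → ℤ) :
    Q F (fun a b c d => w a b c d + w' a b c d) = Q F w + Q F w' := by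
  unfold Q
  simp_rw [add_mul, Finset.sum_add_distrib]

theorem Q_smul (k : ℤ) (w : V n → V n → V n → V n → ℤ) :
    Q F (fun a b c d => k * w a b c d) = k * Q F w := by
  unfold Q
  simp_rw [mul_assoc, Finset.mul_sum]

theorem Q_swap23 (w : V n → V n → V n → V n → ℤ) :
    Q F (fun a b c d => w a c b d) = Q F w := by
  unfold Q
  refine Finset.sum_congr rfl fun a _ => ?_
  rw [Finset.sum_comm]
  refine Finset.sum_congr rfl fun c _ => Finset.sum_congr rfl fun b _ =>
    Finset.sum_congr rfl fun d _ => ?_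
  rw [g_swap23]

theorem Q_swap24 (w : V n → V n → V n → V n → ℤ) :
    Q F (fun a b c d => w a d c b) = Q F w := by
  unfold Q
  refine Finset.sum_congr rfl fun a _ => ?_
  calc ∑ b, ∑ c, ∑ d, w a d c b * g F a b c d = ∑ b, ∑ d, ∑ c, w a d c b * g F a b c d :=
        Finset.sum_congr rfl fun b _ => Finset.sum_comm
    _ = ∑ d, ∑ b, ∑ c, w a d c b * g F a b c d := Finset.sum_comm
    _ = ∑ d, ∑ c, ∑ b, w a d c b * g F a b c d :=
        Finset.sum_congr rfl fun b _ => Finset.sum_comm
    _ = _ := by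
        refine Finset.sum_congr rfl fun d _ => Finset.sum_congr rfl fun c _ =>
          Finset.sum_congr rfl fun b _ => ?_
        rw [g_swap24]

theorem P_ite (v u : V n) (t : V c) : P F L v u t = ∑ x, (if L x = t then 1 else 0) * ch F v u x := by
  unfold P
  refine Finset.sum_congr rfl fun x _ => ?_
  split_ifs <;> simp

theorem sum_ind2 (a b : V n) : ∑ t : V c, (if L a = t then (1 : ℤ) else 0) * (if L b = t then 1 else 0)
    = e L a b := by
  unfold e
  by_cases h : L a = L b
  · rw [if_pos h, h]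
    simp
  · rw [if_neg h]
    refine Finset.sum_eq_zero fun t _ => ?_
    by_cases h1 : L a = t
    · rw [if_neg (fun h2 : L b = t => h (h1.trans h2.symm)), mul_zero]
    · rw [if_neg h1, zero_mul]

theorem sum_ind4 (a b c' d : V n) : ∑ t : V c, (if L a = t then (1 : ℤ) else 0) *
    (if L b = t then 1 else 0) * (if L c' = t then 1 else 0) * (if L d = t then 1 else 0)
    = e L a b * e L a c' * e L a d := by
  rw [Finset.sum_eq_single (L a)]
  · unfold e
    rw [if_pos rfl, one_mul]
    simp only [eq_comm (a := L a)]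
  · intro t _ ht
    rw [if_neg (Ne.symm ht)]
    simp
  · intro h
    exact absurd (Finset.mem_univ _) h

theorem S_eq (v u : V n) : S F L v u = ∑ a, ∑ b, e L a b * (ch F v u a * ch F v u b) := by
  unfold S
  simp_rw [P_ite, sq, Finset.sum_mul_sum]
  rw [Finset.sum_comm]
  refine Finset.sum_congr rfl fun a _ => ?_
  rw [Finset.sum_comm]
  refine Finset.sum_congr rfl fun b _ => ?_
  rw [← sum_ind2 L a b, Finset.sum_mul]
  exact Finset.sum_congr rfl fun t _ => by ring

theorem W4_eq (v u : V n) : W (fun x => v ⬝ᵥ F x) u ^ 4 = ∑ a, ∑ b, ∑ c, ∑ d,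
    (1 : ℤ) * (ch F v u a * ch F v u b * ch F v u c * ch F v u d) := by
  rw [W_eq]
  have h : (∑ x, ch F v u x) ^ 4 = (∑ x, ch F v u x) * ((∑ x, ch F v u x) *
      ((∑ x, ch F v u x) * (∑ x, ch F v u x))) := by ring
  rw [h]
  simp_rw [Finset.sum_mul, Finset.mul_sum]
  refine Finset.sum_congr rfl fun a _ => Finset.sum_congr rfl fun b _ =>
    Finset.sum_congr rfl fun c _ => Finset.sum_congr rfl fun d _ => by ring

theorem S2_eq (v u : V n) : S F L v u ^ 2 = ∑ a, ∑ b, ∑ c, ∑ d,
    (e L a b * e L c d) * (ch F v u a * ch F v u b * ch F v u c * ch F v u d) := by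
  rw [S_eq, sq]
  simp_rw [Finset.sum_mul, Finset.mul_sum]
  refine Finset.sum_congr rfl fun a _ => Finset.sum_congr rfl fun b _ =>
    Finset.sum_congr rfl fun c _ => Finset.sum_congr rfl fun d _ => by ring

theorem P4_eq (v u : V n) : ∑ t, P F L v u t ^ 4 = ∑ a, ∑ b, ∑ c, ∑ d,
    (e L a b * e L a c * e L a d) * (ch F v u a * ch F v u b * ch F v u c * ch F v u d) := by
  have h : ∀ t : V c, P F L v u t ^ 4 = ∑ q : V n × V n × V n × V n,
      ((if L q.1 = t then (1 : ℤ) else 0) * (if L q.2.1 = t then 1 else 0) *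
        (if L q.2.2.1 = t then 1 else 0) * (if L q.2.2.2 = t then 1 else 0)) *
      (ch F v u q.1 * ch F v u q.2.1 * ch F v u q.2.2.1 * ch F v u q.2.2.2) := by
    intro t
    rw [P_ite]
    have h1 : (∑ x, (if L x = t then (1 : ℤ) else 0) * ch F v u x) ^ 4 =
        (∑ x, (if L x = t then (1 : ℤ) else 0) * ch F v u x) *
        ((∑ x, (if L x = t then (1 : ℤ) else 0) * ch F v u x) *
        ((∑ x, (if L x = t then (1 : ℤ) else 0) * ch F v u x) *
          (∑ x, (if L x = t then (1 : ℤ) else 0) * ch F v u x))) := by ring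
    rw [h1]
    simp only [Fintype.sum_prod_type, Finset.sum_mul, Finset.mul_sum]
    refine Finset.sum_congr rfl fun a _ => Finset.sum_congr rfl fun b _ =>
      Finset.sum_congr rfl fun c _ => Finset.sum_congr rfl fun d _ => by ring
  rw [Finset.sum_congr rfl fun t _ => h t]
  rw [Finset.sum_comm]
  simp only [Fintype.sum_prod_type]
  refine Finset.sum_congr rfl fun a _ => Finset.sum_congr rfl fun b _ =>
    Finset.sum_congr rfl fun c _ => Finset.sum_congr rfl fun d _ => ?_
  rw [← Finset.sum_mul, sum_ind4]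

/-- the inequality between the three totals -/
theorem ineq1 : 3 * ∑ v, ∑ u, S F L v u ^ 2 - 2 * ∑ v, ∑ u, ∑ t, P F L v u t ^ 4 ≤
    ∑ v, ∑ u, W (fun x => v ⬝ᵥ F x) u ^ 4 := by
  rw [Q_of F (fun a b c d => 1) _ (W4_eq F), Q_of F (fun a b c d => e L a b * e L c d) _ (S2_eq F L),
    Q_of F (fun a b c d => e L a b * e L a c * e L a d) _ (P4_eq F L)]
  have h1 := Q_swap23 F (fun a b c d => e L a b * e L c d)
  have h2 := Q_swap24 F (fun a b c d => e L a b * e L c d)
  have h3 : Q F (fun a b c d => ((e L a b * e L c d + e L a c * e L b d) + e L a d * e L c b) +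
      (-2) * (e L a b * e L a c * e L a d)) ≤ Q F (fun a b c d => 1) := by
    refine Q_mono F _ _ fun a b c d => ?_
    unfold e
    by_cases h1 : L a = L b <;> by_cases h2 : L a = L c <;> by_cases h3 : L a = L d <;>
      by_cases h4 : L b = L d <;> by_cases h5 : L c = L d <;> by_cases h6 : L c = L b <;>
      simp_all
  rw [Q_add F (fun a b c d => (e L a b * e L c d + e L a c * e L b d) + e L a d * e L c b)
      (fun a b c d => (-2) * (e L a b * e L a c * e L a d)),
    Q_add F (fun a b c d => e L a b * e L c d + e L a c * e L b d)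
      (fun a b c d => e L a d * e L c b),
    Q_add F (fun a b c d => e L a b * e L c d) (fun a b c d => e L a c * e L b d),
    Q_smul F (-2) (fun a b c d => e L a b * e L a c * e L a d)] at h3
  linarith

/-- the trivial solutions in two different fibres -/
theorem ineq2 : (2 : ℤ) ^ n * 2 ^ n * ∑ a, ∑ b, (1 - e L a b) ≤
    ∑ v, ∑ u, S F L v u ^ 2 - ∑ v, ∑ u, ∑ t, P F L v u t ^ 4 := by
  rw [Q_of F (fun a b c d => e L a b * e L c d) _ (S2_eq F L),
    Q_of F (fun a b c d => e L a b * e L a c * e L a d) _ (P4_eq F L)]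
  have h0 : ∀ a b c d : V n, 0 ≤ e L a b * e L c d + (-1) * (e L a b * e L a c * e L a d) := by
    intro a b c d
    unfold e
    by_cases h1 : L a = L b <;> by_cases h2 : L a = L c <;> by_cases h3 : L a = L d <;>
      by_cases h5 : L c = L d <;> simp_all
  have h3 : (2 : ℤ) ^ n * 2 ^ n * ∑ a, ∑ b, (1 - e L a b) ≤
      Q F (fun a b c d => e L a b * e L c d + (-1) * (e L a b * e L a c * e L a d)) := by
    unfold Q
    rw [Finset.mul_sum]
    refine Finset.sum_le_sum fun a _ => ?_
    have h4 : ∀ b : V n, 0 ≤ ∑ c, ∑ d, (e L a b * e L c d + (-1) * (e L a b * e L a c * e L a d)) *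
        g F a b c d := fun b => Finset.sum_nonneg fun c _ => Finset.sum_nonneg fun d _ =>
          mul_nonneg (h0 a b c d) (g_nonneg F a b c d)
    refine le_trans ?_ (Finset.single_le_sum (fun b _ => h4 b) (Finset.mem_univ a))
    rw [Finset.mul_sum]
    refine Finset.sum_le_sum fun c _ => ?_
    have h5 : ∀ d : V n, 0 ≤ (e L a a * e L c d + (-1) * (e L a a * e L a c * e L a d)) *
        g F a a c d := fun d => mul_nonneg (h0 a a c d) (g_nonneg F a a c d)
    refine le_trans ?_ (Finset.single_le_sum (fun d _ => h5 d) (Finset.mem_univ c))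
    rw [g_triv]
    have h6 : e L a a * e L c c + (-1) * (e L a a * e L a c * e L a c) = 1 - e L a c := by
      unfold e
      by_cases h1 : L a = L c <;> simp [h1]
    rw [h6, mul_comm]
  rw [Q_add F (fun a b c d => e L a b * e L c d)
      (fun a b c d => (-1) * (e L a b * e L a c * e L a d)),
    Q_smul F (-1) (fun a b c d => e L a b * e L a c * e L a d)] at h3
  linarith

end

end Pool.Agent.Work.MP_39d092_co.PD
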