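import Pool.Agent.Work.MP_39d092_co.PD.Main

/-!
# Piecewise divisible functions: final statements
-/

set_option autoImplicit false

namespace Pool.Agent.Work.MP_39d092_co.PD

open Finset Matrix
open Pool.MP_39d092_co.LD

theorem sg_pow (a : ZMod 2) : (-1 : ℤ) ^ a.val = sg a := by
  revert a; decide

/-- the concrete partial sums -/
theorem P_concrete {n c : ℕ} (F : V n → V n) (L : V n → V c) (v u : V n) (t : V c) :
    ∑ x ∈ univ.filter (fun x : V n => L x = t), (-1 : ℤ) ^ (v ⬝ᵥ F x + u ⬝ᵥ x).val =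
      P F L v u t := by
  unfold P ch
  rw [Finset.sum_filter]
  simp_rw [sg_pow]

/-- from distances to Walsh coefficients -/
theorem walsh_lt {n k : ℕ} (hn : n = 2 * k) (hk : 1 ≤ k) (f : V n → ZMod 2)
    (h : ∀ (a : V n) (c : ZMod 2),
      2 ^ (n - 1) - 2 ^ (n / 2) < (univ.filter (fun x : V n => f x ≠ a ⬝ᵥ x + c)).card) (u : V n) :
    |W f u| < 4 * 2 ^ (k - 1) := by
  have h1 : n / 2 = k := by omega
  rw [h1] at h
  refine bound_of f (t := 2 ^ (n - 1) - 2 ^ k) ?_ h u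
  have h2 : 2 ^ k ≤ 2 ^ (n - 1) := Nat.pow_le_pow_right (by norm_num) (by omega)
  rw [Nat.cast_sub h2]
  push_cast
  have h3 : (2 : ℤ) ^ n = 2 * 2 ^ (n - 1) := by
    rw [← pow_succ']
    congr 1
    omega
  have h4 : (2 : ℤ) ^ k = 2 * 2 ^ (k - 1) := by
    rw [← pow_succ']
    congr 1
    omega
  rw [h3, h4]
  ring

theorem four_sq {n k : ℕ} (hn : n = 2 * k) (hk : 1 ≤ k) :
    4 * ((2 : ℤ) ^ (k - 1)) ^ 2 = 2 ^ n := by
  have h4 : (2 : ℤ) ^ k = 2 * 2 ^ (k - 1) := by
    rw [← pow_succ']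
    congr 1
    omega
  have h5 : (2 : ℤ) ^ n = (2 ^ k) ^ 2 := by
    rw [← pow_mul]
    congr 1
    omega
  rw [h5, h4]
  ring

/-- first statement: divisibility on the sixteen pieces -/
theorem pieces {n : ℕ} (h2 : 2 ≤ n) (he : Even n) (F : V n → V n)
    (L : V n →ₗ[ZMod 2] V 4) (hL : Function.Surjective L) (X : Finset (V n))
    (hX : 32 * X.card ≤ 2 ^ n)
    (hF : ∀ v : V n, v ≠ 0 → v ∉ X → ∀ (u : V n) (t : V 4), (2 : ℤ) ^ (n / 2 - 1) ∣
      ∑ x ∈ univ.filter (fun x : V n => L x = t), (-1 : ℤ) ^ (v ⬝ᵥ F x + u ⬝ᵥ x).val) :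
    ∃ v : V n, v ≠ 0 ∧ ∃ (a : V n) (c : ZMod 2),
      (univ.filter (fun x : V n => v ⬝ᵥ F x ≠ a ⬝ᵥ x + c)).card ≤ 2 ^ (n - 1) - 2 ^ (n / 2) := by
  obtain ⟨k, hk⟩ : ∃ k, n = 2 * k := by
    obtain ⟨k, hk⟩ := he
    exact ⟨k, by omega⟩
  have hk1 : 1 ≤ k := by omega
  by_contra hcon
  push Not at hcon
  have hnk : n / 2 - 1 = k - 1 := by omega
  rw [hnk] at hF
  have h1 := main F L hL (2 ^ (k - 1)) (by positivity) (four_sq hk hk1) X
    (fun v hv hx u t => by
      rw [← P_concrete]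
      exact hF v hv hx u t)
    (fun v hv u => walsh_lt hk hk1 _ (hcon v hv) u)
  have h3 : (32 : ℤ) * (X.card : ℤ) ≤ 2 ^ n := by exact_mod_cast hX
  norm_num at h1
  linarith

/-- a linear map onto `F_2^c` whose kernel lies in `E` -/
theorem exists_map {n c : ℕ} (hc : c ≤ n) (E : Submodule (ZMod 2) (V n))
    (hE : n - c ≤ Module.finrank (ZMod 2) E) :
    ∃ L : V n →ₗ[ZMod 2] V c, Function.Surjective L ∧ ∀ x, L x = 0 → x ∈ E := by
  obtain ⟨b⟩ : Nonempty (Module.Basis (Fin (Module.finrank (ZMod 2) E)) (ZMod 2) E) :=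
    ⟨Module.finBasis (ZMod 2) E⟩
  have hli : LinearIndependent (ZMod 2)
      (fun i : Fin (n - c) => ((b (Fin.castLE hE i) : E) : V n)) := by
    have h1 : LinearIndependent (ZMod 2) (fun i : Fin (n - c) => b (Fin.castLE hE i)) :=
      b.linearIndependent.comp _ (Fin.castLE_injective hE)
    exact h1.map' E.subtype (Submodule.ker_subtype E)
  obtain ⟨E', hE'⟩ : ∃ E' : Submodule (ZMod 2) (V n), E' = Submodule.span (ZMod 2)
    (Set.range (fun i : Fin (n - c) => ((b (Fin.castLE hE i) : E) : V n))) := ⟨_, rfl⟩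
  have hfin : Module.finrank (ZMod 2) E' = n - c := by
    rw [hE', finrank_span_eq_card hli, Fintype.card_fin]
  have hle : E' ≤ E := by
    rw [hE', Submodule.span_le]
    rintro _ ⟨i, rfl⟩
    exact (b (Fin.castLE hE i)).2
  have hq : Module.finrank (ZMod 2) (V n ⧸ E') = Module.finrank (ZMod 2) (V c) := by
    have h1 := Submodule.finrank_quotient_add_finrank E'
    rw [hfin] at h1
    rw [Module.finrank_fin_fun] at h1 ⊢
    omega
  refine ⟨(LinearEquiv.ofFinrankEq (V n ⧸ E') (V c) hq).toLinearMap ∘ₗ E'.mkQ, ?_, ?_⟩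
  · rw [LinearMap.coe_comp]
    exact (LinearEquiv.surjective _).comp (Submodule.mkQ_surjective E')
  · intro x hx
    rw [LinearMap.comp_apply, LinearEquiv.coe_coe, LinearEquiv.map_eq_zero_iff,
      Submodule.mkQ_apply, Submodule.Quotient.mk_eq_zero] at hx
    exact hle hx

/-- affine pieces: the partial sums are divisible -/
theorem affine_div {n c : ℕ} (hc : c ≤ n) (L : V n →ₗ[ZMod 2] V c) (hL : Function.Surjective L)
    (F : V n → V n) (hF : ∀ x d d', L d = 0 → L d' = 0 →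
      F (x + d + d') + F (x + d) + F (x + d') + F x = 0) (v u : V n) (t : V c) :
    (2 : ℤ) ^ (n - c) ∣ P F L v u t := by
  obtain ⟨x0, rfl⟩ := hL t
  obtain ⟨f, hf⟩ : ∃ f : V n → ZMod 2, f = fun x => v ⬝ᵥ F x + u ⬝ᵥ x := ⟨_, rfl⟩
  have hf4 : ∀ x d d', L d = 0 → L d' = 0 → f (x + d + d') + f (x + d) + f (x + d') + f x = 0 := by
    intro x d d' hd hd'
    have h1 := congrArg (fun y => v ⬝ᵥ y) (hF x d d' hd hd')
    simp only [dotProduct_add, dotProduct_zero] at h1
    rw [hf]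
    simp only [dotProduct_add]
    have h2 : ∀ p q r s a b c : ZMod 2, p + q + r + s = 0 →
        (p + (a + b + c)) + (q + (a + b)) + (r + (a + c)) + (s + a) = 0 := by decide
    exact h2 _ _ _ _ _ _ _ h1
  have hP : P F L v u (L x0) = ∑ x, if L x = L x0 then sg (f x) else 0 := by
    unfold P ch
    rw [hf]
  rw [hP]
  by_cases hex : ∃ d, L d = 0 ∧ f (x0 + d) ≠ f x0
  · obtain ⟨d, hd, hne⟩ := hex
    have h1 : ∑ x, (if L x = L x0 then sg (f x) else 0) =
        -∑ x, (if L x = L x0 then sg (f x) else 0) := by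
      conv_lhs => rw [← sum_shift d (fun x => if L x = L x0 then sg (f x) else 0)]
      rw [← Finset.sum_neg_distrib]
      refine Finset.sum_congr rfl fun x _ => ?_
      rw [map_add, hd, add_zero]
      by_cases hx : L x = L x0
      · rw [if_pos hx, if_pos hx]
        have h2 := hf4 x0 (x + x0) d (by rw [map_add, hx, ← map_add, vadd_self, map_zero]) hd
        have h3 : x0 + (x + x0) = x := by
          rw [add_comm x x0, ← add_assoc, vadd_self, zero_add]
        rw [h3] at h2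
        have h4 : ∀ p q r s : ZMod 2, p + q + r + s = 0 → r ≠ s → sg p = -sg q := by decide
        exact h4 _ _ _ _ h2 hne
      · rw [if_neg hx, if_neg hx, neg_zero]
    have h2 : ∑ x, (if L x = L x0 then sg (f x) else 0) = 0 := by linarith
    rw [h2]
    exact dvd_zero _
  · push Not at hex
    have h1 : ∑ x, (if L x = L x0 then sg (f x) else 0) =
        sg (f x0) * ∑ b, (if L b = 0 then (1 : ℤ) else 0) := by
      rw [← e_row L x0, Finset.mul_sum]
      refine Finset.sum_congr rfl fun x _ => ?_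
      unfold e
      by_cases hx : L x = L x0
      · rw [if_pos hx, if_pos hx.symm, mul_one]
        have h2 := hex (x + x0) (by rw [map_add, hx, ← map_add, vadd_self, map_zero])
        have h3 : x0 + (x + x0) = x := by
          rw [add_comm x x0, ← add_assoc, vadd_self, zero_add]
        rw [h3] at h2
        rw [h2]
      · rw [if_neg hx, if_neg (fun h => hx h.symm), mul_zero]
    rw [h1]
    have h2 := ker_card L hL
    have h3 : ∑ b, (if L b = 0 then (1 : ℤ) else 0) = 2 ^ (n - c) := by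
      have h4 : (2 : ℤ) ^ n = 2 ^ c * 2 ^ (n - c) := by
        rw [← pow_add]
        congr 1
        omega
      rw [h4] at h2
      exact mul_left_cancel₀ (by positivity) h2
    rw [h3]
    exact Dvd.intro_left _ rfl

/-- second statement: affine on the cosets of a subspace of dimension `n/2 - 1` -/
theorem affine_pieces {n : ℕ} (h2 : 2 ≤ n) (he : Even n) (F : V n → V n)
    (E : Submodule (ZMod 2) (V n)) (hE : n / 2 - 1 ≤ Module.finrank (ZMod 2) E)
    (hF : ∀ x, ∀ d ∈ E, ∀ d' ∈ E, F (x + d + d') + F (x + d) + F (x + d') + F x = 0) :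
    ∃ v : V n, v ≠ 0 ∧ ∃ (a : V n) (c : ZMod 2),
      (univ.filter (fun x : V n => v ⬝ᵥ F x ≠ a ⬝ᵥ x + c)).card ≤ 2 ^ (n - 1) - 2 ^ (n / 2) := by
  obtain ⟨k, hk⟩ : ∃ k, n = 2 * k := by
    obtain ⟨k, hk⟩ := he
    exact ⟨k, by omega⟩
  have hk1 : 1 ≤ k := by omega
  by_contra hcon
  push Not at hcon
  obtain ⟨L, hL, hLE⟩ := exists_map (c := k + 1) (by omega : k + 1 ≤ n) E (by omega)
  have h1 := main F L hL (2 ^ (k - 1)) (by positivity) (four_sq hk hk1) ∅
    (fun v _ _ u t => by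
      have h3 := affine_div (by omega : k + 1 ≤ n) L hL F
        (fun x d d' hd hd' => hF x d (hLE d hd) d' (hLE d' hd')) v u t
      have h4 : n - (k + 1) = k - 1 := by omega
      rwa [h4] at h3)
    (fun v hv u => walsh_lt hk hk1 _ (hcon v hv) u)
  rw [Finset.card_empty, Nat.cast_zero, mul_zero] at h1
  have h5 : (2 : ℤ) ^ n = (2 ^ k) ^ 2 := by
    rw [← pow_mul]
    congr 1
    omega
  have h6 : (2 : ℤ) ^ (k + 1) = 2 * 2 ^ k := by
    rw [pow_succ]; ring
  rw [h5, h6] at h1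
  have h7 : (0 : ℤ) < 2 ^ k := by positivity
  obtain ⟨y, hy⟩ : ∃ y : ℤ, y = 2 ^ k := ⟨_, rfl⟩
  rw [← hy] at h1 h7
  have h8 : (2 * y - 9) * y ^ 2 + 6 * (2 * y) = y * (2 * y ^ 2 - 9 * y + 12) := by ring
  rw [h8] at h1
  have h9 : 0 < 2 * y ^ 2 - 9 * y + 12 := by nlinarith [sq_nonneg (4 * y - 9)]
  have h10 := mul_pos h7 h9
  linarith

end Pool.Agent.Work.MP_39d092_co.PD
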