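import Pool.Agent.Work.MP_39d092_co.PD.Final

/-!
# Piecewise divisible functions: partitions into flats
-/

set_option autoImplicit false

namespace Pool.Agent.Work.MP_39d092_co.PD

open Finset Matrix
open Pool.MP_39d092_co.LD
open scoped Classical in
/-- one flat -/
theorem flat_div {n : ℕ} (E : Submodule (ZMod 2) (V n)) (m : ℕ) (hm : m ≤ Module.finrank (ZMod 2) E)
    (f : V n → ZMod 2) (x : V n)
    (hf : ∀ d ∈ E, ∀ d' ∈ E, f (x + d + d') + f (x + d) + f (x + d') + f x = 0) :
    (2 : ℤ) ^ m ∣ ∑ d ∈ univ.filter (fun d : V n => d ∈ E), sg (f (x + d)) := by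
  by_cases hex : ∃ d ∈ E, f (x + d) ≠ f x
  · obtain ⟨d, hd, hne⟩ := hex
    have h1 : ∑ y ∈ univ.filter (fun d : V n => d ∈ E), sg (f (x + y)) =
        -∑ y ∈ univ.filter (fun d : V n => d ∈ E), sg (f (x + y)) := by
      rw [Finset.sum_filter]
      conv_lhs => rw [← sum_shift d (fun y => if y ∈ E then sg (f (x + y)) else 0)]
      rw [← Finset.sum_neg_distrib]
      refine Finset.sum_congr rfl fun y _ => ?_
      by_cases hy : y ∈ E
      · rw [if_pos (E.add_mem hy hd), if_pos hy]
        have h2 := hf y hy d hd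
        rw [add_assoc] at h2
        have h4 : ∀ p q r s : ZMod 2, p + q + r + s = 0 → r ≠ s → sg p = -sg q := by decide
        have h5 : f (x + (y + d)) + f (x + y) + f (x + d) + f x = 0 := by
          rw [← add_assoc x y d]
          exact hf y hy d hd
        exact h4 _ _ _ _ h5 hne
      · rw [if_neg hy, if_neg, neg_zero]
        intro h
        apply hy
        have := E.sub_mem h hd
        rwa [add_sub_cancel_right] at this
    have h2 : ∑ y ∈ univ.filter (fun d : V n => d ∈ E), sg (f (x + y)) = 0 := by linarith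
    rw [h2]
    exact dvd_zero _
  · push Not at hex
    have h1 : ∑ y ∈ univ.filter (fun d : V n => d ∈ E), sg (f (x + y)) =
        ∑ y ∈ univ.filter (fun d : V n => d ∈ E), sg (f x) := by
      refine Finset.sum_congr rfl fun y hy => ?_
      rw [hex y (Finset.mem_filter.1 hy).2]
    rw [h1, Finset.sum_const, nsmul_eq_mul]
    have h2 : (univ.filter (fun d : V n => d ∈ E)).card = 2 ^ Module.finrank (ZMod 2) E := by
      have h3 := Module.card_eq_pow_finrank (K := ZMod 2) (V := E)
      rw [ZMod.card] at h3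
      rw [← h3, Fintype.card_subtype]
    rw [h2]
    push_cast
    exact Dvd.dvd.mul_right (pow_dvd_pow 2 hm) _

/-- partition into flats -/
theorem flats_div {n c : ℕ} (F : V n → V n) (L : V n →ₗ[ZMod 2] V c) (m : ℕ) (v u : V n) (t : V c)
    (E : V n → Submodule (ZMod 2) (V n)) (hE : ∀ x, m ≤ Module.finrank (ZMod 2) (E x))
    (hL : ∀ x, ∀ d ∈ E x, L d = 0) (hcon : ∀ x, ∀ d ∈ E x, E (x + d) = E x)
    (hF : ∀ x, ∀ d ∈ E x, ∀ d' ∈ E x,
      v ⬝ᵥ F (x + d + d') + v ⬝ᵥ F (x + d) + v ⬝ᵥ F (x + d') + v ⬝ᵥ F x = 0) :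
    (2 : ℤ) ^ m ∣ P F L v u t := by
  classical
  obtain ⟨f, hf⟩ : ∃ f : V n → ZMod 2, f = fun x => v ⬝ᵥ F x + u ⬝ᵥ x := ⟨_, rfl⟩
  have hf4 : ∀ x, ∀ d ∈ E x, ∀ d' ∈ E x,
      f (x + d + d') + f (x + d) + f (x + d') + f x = 0 := by
    intro x d hd d' hd'
    have h1 := hF x d hd d' hd'
    rw [hf]
    simp only [dotProduct_add]
    have h2 : ∀ p q r s a b c : ZMod 2, p + q + r + s = 0 →
        (p + (a + b + c)) + (q + (a + b)) + (r + (a + c)) + (s + a) = 0 := by decide
    exact h2 _ _ _ _ _ _ _ h1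
  have hP : P F L v u t = ∑ x, if L x = t then sg (f x) else 0 := by
    unfold P ch
    rw [hf]
  obtain ⟨Φ, hΦ⟩ : ∃ Φ : V n → Finset (V n), Φ = fun x => univ.filter (fun y => y + x ∈ E x) :=
    ⟨_, rfl⟩
  have hself : ∀ x, x ∈ Φ x := by
    intro x
    rw [hΦ]
    refine Finset.mem_filter.2 ⟨Finset.mem_univ _, ?_⟩
    rw [vadd_self]
    exact (E x).zero_mem
  have hmem : ∀ x y, y ∈ Φ x → Φ y = Φ x := by
    intro x y hy
    rw [hΦ] at hy ⊢
    have h1 : y + x ∈ E x := (Finset.mem_filter.1 hy).2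
    have h2 : x + (y + x) = y := by rw [add_comm y x, ← add_assoc, vadd_self, zero_add]
    have h3 : E y = E x := by
      have := hcon x (y + x) h1
      rwa [h2] at this
    ext z
    simp only [Finset.mem_filter, Finset.mem_univ, true_and]
    rw [h3]
    have h4 : z + y = (z + x) + (y + x) := by
      have : (z + x) + (y + x) = z + y + (x + x) := by abel
      rw [this, vadd_self, add_zero]
    rw [h4]
    constructor
    · intro h
      have := (E x).sub_mem h h1
      rwa [add_sub_cancel_right] at this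
    · intro h
      exact (E x).add_mem h h1
  rw [hP, ← Finset.sum_fiberwise_of_maps_to (s := univ) (t := univ.image Φ) (g := Φ)
    (fun x _ => Finset.mem_image_of_mem Φ (Finset.mem_univ x))]
  refine Finset.dvd_sum fun s hs => ?_
  obtain ⟨x0, _, rfl⟩ := Finset.mem_image.1 hs
  have h1 : (univ.filter (fun x => Φ x = Φ x0)) = Φ x0 := by
    ext y
    simp only [Finset.mem_filter, Finset.mem_univ, true_and]
    constructor
    · intro h
      rw [← h]
      exact hself y
    · exact hmem x0 y
  rw [h1]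
  have h2 : ∑ x ∈ Φ x0, (if L x = t then sg (f x) else 0) =
      (if L x0 = t then (1 : ℤ) else 0) *
        ∑ d ∈ univ.filter (fun d : V n => d ∈ E x0), sg (f (x0 + d)) := by
    rw [Finset.mul_sum]
    refine Finset.sum_nbij' (fun y => y + x0) (fun d => x0 + d) ?_ ?_ ?_ ?_ ?_
    · intro y hy
      rw [hΦ] at hy
      exact Finset.mem_filter.2 ⟨Finset.mem_univ _, (Finset.mem_filter.1 hy).2⟩
    · intro d hd
      rw [hΦ]
      refine Finset.mem_filter.2 ⟨Finset.mem_univ _, ?_⟩
      have h3 : x0 + d + x0 = d := by rw [add_comm x0 d, add_assoc, vadd_self, add_zero]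
      rw [h3]
      exact (Finset.mem_filter.1 hd).2
    · intro y _
      change x0 + (y + x0) = y
      rw [add_comm y x0, ← add_assoc, vadd_self, zero_add]
    · intro d _
      change x0 + d + x0 = d
      rw [add_comm x0 d, add_assoc, vadd_self, add_zero]
    · intro y hy
      rw [hΦ] at hy
      have h3 : y + x0 ∈ E x0 := (Finset.mem_filter.1 hy).2
      have h4 : L y = L x0 := by
        have h5 := hL x0 _ h3
        rw [map_add] at h5
        exact (add_eq_zero_iff' _ _).1 (by rw [add_comm]; exact h5)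
      have h5 : x0 + (y + x0) = y := by rw [add_comm y x0, ← add_assoc, vadd_self, zero_add]
      change (if L y = t then sg (f y) else 0) = (if L x0 = t then (1 : ℤ) else 0) *
        sg (f (x0 + (y + x0)))
      rw [h4, h5]
      by_cases h6 : L x0 = t
      · rw [if_pos h6, if_pos h6, one_mul]
      · rw [if_neg h6, if_neg h6, zero_mul]
  rw [h2]
  exact Dvd.dvd.mul_left (flat_div (E x0) m (hE x0) f x0 (hf4 x0)) _

end Pool.Agent.Work.MP_39d092_co.PD
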