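import Pool.Agent.Work.MP_39d092_co.PD.Core

/-!
# Piecewise divisible functions: components, the zero component, conclusion
-/

set_option autoImplicit false

namespace Pool.Agent.Work.MP_39d092_co.PD

open Finset Matrix
open Pool.MP_39d092_co.LD

theorem sg_diff_even (a b : ZMod 2) : Even (sg a - sg b) := by
  revert a b; decide

theorem T_even_iff {c : ℕ} (p : V c → ℤ) (w : V c) : Even (T p w) ↔ Even (∑ t, p t ^ 2) := by
  have h1 : Even (T p w - ∑ t, p t ^ 2) := by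
    unfold T
    rw [← Finset.sum_sub_distrib]
    refine Finset.even_sum _ fun t _ => ?_
    have h2 : p t * sg (w ⬝ᵥ t) - p t ^ 2 = p t * (sg (w ⬝ᵥ t) - sg 0) - p t * (p t - 1) := by
      rw [sg_zero]; ring
    rw [h2]
    refine Even.sub (Even.mul_left (sg_diff_even _ _) _) ?_
    exact Int.even_mul_pred_self (p t)
  rw [Int.even_sub] at h1
  exact h1

theorem fiber {c : ℕ} (p : V c → ℤ) (hb : ∀ w, -3 ≤ T p w ∧ T p w ≤ 3) :
    5 * ∑ w, T p w ^ 4 ≤ 2 ^ c * (3 * (∑ t, p t ^ 2) ^ 2 + 26 * ∑ t, p t ^ 2) := by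
  obtain ⟨s, hs⟩ : ∃ s : ℤ, s = ∑ t, p t ^ 2 := ⟨_, rfl⟩
  have hpar : ∀ w, Even (T p w) ↔ Even s := fun w => by rw [hs]; exact T_even_iff p w
  have h2 := parseval p
  rw [← hs] at h2 ⊢
  have hs0 : 0 ≤ s := by rw [hs]; exact Finset.sum_nonneg fun _ _ => sq_nonneg _
  have hC : (0 : ℤ) < 2 ^ c := by positivity
  by_cases he : Even s
  · have h4 : ∑ w, T p w ^ 4 = 4 * ∑ w, T p w ^ 2 := by
      rw [Finset.mul_sum]
      exact Finset.sum_congr rfl fun w _ => even_fourth (hb w).1 (hb w).2 ((hpar w).2 he)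
    rw [h4, h2]
    have h5 : 20 * s ≤ 3 * s ^ 2 + 26 * s := by nlinarith
    have h6 := mul_le_mul_of_nonneg_left h5 hC.le
    linarith
  · have h4 : ∑ w, T p w ^ 4 = 10 * ∑ w, T p w ^ 2 - 9 * 2 ^ c := by
      have h5 : ∑ w, T p w ^ 4 = ∑ w : V c, (10 * T p w ^ 2 - 9) :=
        Finset.sum_congr rfl fun w _ => odd_fourth (hb w).1 (hb w).2 (fun h => he ((hpar w).1 h))
      rw [h5, Finset.sum_sub_distrib, ← Finset.mul_sum, Finset.sum_const, card_V]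
      simp only [nsmul_eq_mul]
      push_cast
      ring
    rw [h4, h2]
    obtain ⟨m, hm⟩ : ∃ m : ℤ, s = 2 * m + 1 := Int.not_even_iff_odd.1 he
    have h5 : 5 * (10 * s - 9) ≤ 3 * s ^ 2 + 26 * s := by
      rw [hm]
      have h6 : 0 ≤ (m - 1) * (m - 2) := by
        rcases le_or_gt m 1 with h | h
        · nlinarith
        · have : 2 ≤ m := h
          nlinarith
      nlinarith
    have h6 := mul_le_mul_of_nonneg_left h5 hC.le
    linarith

section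

variable {n c : ℕ} (F : V n → V n) (L : V n → V c)

theorem W_shift (LT : V c → V n) (hLT : ∀ w x, LT w ⬝ᵥ x = w ⬝ᵥ L x) (v u : V n) (w : V c) :
    W (fun x => v ⬝ᵥ F x) (u + LT w) = T (P F L v u) w := by
  rw [W_eq]
  unfold T P
  simp_rw [Finset.sum_mul]
  rw [Finset.sum_comm]
  refine Finset.sum_congr rfl fun x _ => ?_
  rw [Finset.sum_eq_single (L x)]
  · rw [if_pos rfl]
    unfold ch
    rw [add_dotProduct, hLT, ← add_assoc, sg_add _ (w ⬝ᵥ L x)]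
  · intro t _ ht
    rw [if_neg (Ne.symm ht), zero_mul]
  · intro h
    exact absurd (Finset.mem_univ _) h

theorem S_sum (LT : V c → V n) (hLT : ∀ w x, LT w ⬝ᵥ x = w ⬝ᵥ L x) (v : V n) :
    ∑ u, S F L v u = 2 ^ n * 2 ^ n := by
  have h1 : ∀ u, ∑ w, W (fun x => v ⬝ᵥ F x) (u + LT w) ^ 2 = 2 ^ c * S F L v u := by
    intro u
    rw [S, ← parseval]
    exact Finset.sum_congr rfl fun w _ => by rw [W_shift F L LT hLT]
  have h2 : ∑ u, ∑ w, W (fun x => v ⬝ᵥ F x) (u + LT w) ^ 2 = 2 ^ c * (2 ^ n * 2 ^ n) := by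
    rw [Finset.sum_comm]
    have h3 : ∀ w : V c, ∑ u, W (fun x => v ⬝ᵥ F x) (u + LT w) ^ 2 = 2 ^ n * 2 ^ n := by
      intro w
      rw [sum_shift (LT w) (fun u => W (fun x => v ⬝ᵥ F x) u ^ 2), second]
    rw [Finset.sum_congr rfl fun w _ => h3 w, Finset.sum_const, card_V]
    simp
  rw [Finset.sum_congr rfl fun u _ => h1 u, ← Finset.mul_sum] at h2
  exact mul_left_cancel₀ (by positivity) h2

theorem comp_ineq (LT : V c → V n) (hLT : ∀ w x, LT w ⬝ᵥ x = w ⬝ᵥ L x) (v : V n) (K : ℤ)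
    (hK : 0 < K) (hdiv : ∀ u t, K ∣ P F L v u t) (hW : ∀ u, |W (fun x => v ⬝ᵥ F x) u| < 4 * K) :
    5 * ∑ u, W (fun x => v ⬝ᵥ F x) u ^ 4 ≤
      3 * ∑ u, S F L v u ^ 2 + 26 * K ^ 2 * (2 ^ n * 2 ^ n) := by
  have h1 : ∀ u, 5 * ∑ w, W (fun x => v ⬝ᵥ F x) (u + LT w) ^ 4 ≤
      2 ^ c * (3 * S F L v u ^ 2 + 26 * K ^ 2 * S F L v u) := by
    intro u
    choose p hp using hdiv u
    have hT : ∀ w, W (fun x => v ⬝ᵥ F x) (u + LT w) = K * T p w := by
      intro w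
      rw [W_shift F L LT hLT]
      unfold T
      rw [Finset.mul_sum]
      exact Finset.sum_congr rfl fun t _ => by rw [hp t]; ring
    have hb : ∀ w, -3 ≤ T p w ∧ T p w ≤ 3 := by
      intro w
      have h2 := hW (u + LT w)
      rw [hT w, abs_mul, abs_of_pos hK] at h2
      have h3 : |T p w| < 4 := by
        by_contra h4
        rw [not_lt] at h4
        have := mul_le_mul_of_nonneg_left h4 hK.le
        linarith
      rw [abs_lt] at h3
      omega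
    have h2 := fiber p hb
    have h3 : S F L v u = K ^ 2 * ∑ t, p t ^ 2 := by
      unfold S
      rw [Finset.mul_sum]
      exact Finset.sum_congr rfl fun t _ => by rw [hp t]; ring
    have h4 : ∑ w, W (fun x => v ⬝ᵥ F x) (u + LT w) ^ 4 = K ^ 4 * ∑ w, T p w ^ 4 := by
      rw [Finset.mul_sum]
      exact Finset.sum_congr rfl fun w _ => by rw [hT w]; ring
    rw [h4, h3]
    have h5 := mul_le_mul_of_nonneg_left h2 (by positivity : (0 : ℤ) ≤ K ^ 4)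
    calc 5 * (K ^ 4 * ∑ w, T p w ^ 4) = K ^ 4 * (5 * ∑ w, T p w ^ 4) := by ring
      _ ≤ _ := h5
      _ = _ := by ring
  have h2 := Finset.sum_le_sum fun u (_ : u ∈ (univ : Finset (V n))) => h1 u
  rw [← Finset.mul_sum, ← Finset.mul_sum, Finset.sum_add_distrib, ← Finset.mul_sum,
    ← Finset.mul_sum, S_sum F L LT hLT, Finset.sum_comm] at h2
  have h3 : ∀ w : V c, ∑ u, W (fun x => v ⬝ᵥ F x) (u + LT w) ^ 4 =
      ∑ u, W (fun x => v ⬝ᵥ F x) u ^ 4 := by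
    intro w
    exact sum_shift (LT w) (fun u => W (fun x => v ⬝ᵥ F x) u ^ 4)
  rw [Finset.sum_congr rfl fun w _ => h3 w, Finset.sum_const, card_V] at h2
  have hC : (0 : ℤ) < 2 ^ c := by positivity
  have h4 : (2 : ℤ) ^ c * (5 * ∑ u, W (fun x => v ⬝ᵥ F x) u ^ 4) ≤
      2 ^ c * (3 * ∑ u, S F L v u ^ 2 + 26 * K ^ 2 * (2 ^ n * 2 ^ n)) := by
    refine le_trans (le_of_eq ?_) h2
    rw [nsmul_eq_mul]
    push_cast
    ring
  exact le_of_mul_le_mul_left h4 hC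

theorem D_lower (LT : V c → V n) (hLT : ∀ w x, LT w ⬝ᵥ x = w ⬝ᵥ L x) (v : V n) (K : ℤ)
    (hK : 0 < K) (hdiv : ∀ u t, K ∣ P F L v u t) :
    K ^ 2 * (2 ^ n * 2 ^ n) ≤ ∑ u, ∑ t, P F L v u t ^ 4 := by
  rw [← S_sum F L LT hLT v, Finset.mul_sum]
  refine Finset.sum_le_sum fun u _ => ?_
  unfold S
  rw [Finset.mul_sum]
  refine Finset.sum_le_sum fun t _ => ?_
  obtain ⟨p, hp⟩ := hdiv u t
  rw [hp]
  have h1 : 0 ≤ p ^ 2 * (p ^ 2 - 1) := by
    rcases eq_or_ne p 0 with h | h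
    · rw [h]; norm_num
    · have : 1 ≤ p ^ 2 := by
        have : 0 < p ^ 2 := by positivity
        omega
      exact mul_nonneg (sq_nonneg _) (by linarith)
  have h2 := mul_nonneg (by positivity : (0 : ℤ) ≤ K ^ 4) h1
  linarith [h2]

theorem crude (v : V n) (K : ℤ) (hK : 0 < K) (hW : ∀ u, |W (fun x => v ⬝ᵥ F x) u| < 4 * K) :
    5 * ∑ u, W (fun x => v ⬝ᵥ F x) u ^ 4 ≤ 80 * K ^ 2 * (2 ^ n * 2 ^ n) := by
  have h1 : ∀ u, W (fun x => v ⬝ᵥ F x) u ^ 4 ≤ 16 * K ^ 2 * W (fun x => v ⬝ᵥ F x) u ^ 2 := by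
    intro u
    have h2 : W (fun x => v ⬝ᵥ F x) u ^ 2 ≤ (4 * K) ^ 2 := by
      rw [← sq_abs]
      exact pow_le_pow_left₀ (abs_nonneg _) (hW u).le 2
    have h3 := mul_le_mul_of_nonneg_right h2 (sq_nonneg (W (fun x => v ⬝ᵥ F x) u))
    linarith [h3]
  have h2 := Finset.sum_le_sum fun u (_ : u ∈ (univ : Finset (V n))) => h1 u
  rw [← Finset.mul_sum, second] at h2
  linarith

end

section

variable {n c : ℕ} (F : V n → V n) (L : V n →ₗ[ZMod 2] V c)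

theorem exists_LT : ∃ LT : V c → V n, ∀ w x, LT w ⬝ᵥ x = w ⬝ᵥ L x := by
  have h : ∀ w : V c, ∃ a : V n, ∀ x, w ⬝ᵥ L x = a ⬝ᵥ x := fun w =>
    additive_dot (fun x => w ⬝ᵥ L x) (fun a b => by rw [map_add, dotProduct_add])
  choose LT h using h
  exact ⟨LT, fun w x => (h w x).symm⟩

theorem LT_inj (hL : Function.Surjective L) (LT : V c → V n)
    (hLT : ∀ w x, LT w ⬝ᵥ x = w ⬝ᵥ L x) : Function.Injective LT := by
  intro w w' h
  have h1 : ∀ t, w ⬝ᵥ t = w' ⬝ᵥ t := by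
    intro t
    obtain ⟨x, rfl⟩ := hL t
    rw [← hLT, ← hLT, h]
  funext i
  have h2 := h1 (Pi.single i 1)
  rwa [dotProduct_single, dotProduct_single, mul_one, mul_one] at h2

theorem e_row (a : V n) : ∑ b, e L a b = ∑ b, if L b = 0 then (1 : ℤ) else 0 := by
  rw [← sum_shift a (fun b => e L a b)]
  refine Finset.sum_congr rfl fun b _ => ?_
  unfold e
  rw [map_add]
  by_cases h : L b = 0
  · rw [if_pos h, if_pos (by rw [h, zero_add])]
  · rw [if_neg h, if_neg]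
    intro h1
    apply h
    have h2 : 0 + L a = L b + L a := by rw [zero_add]; exact h1
    exact (add_right_cancel h2).symm

theorem ker_card (hL : Function.Surjective L) :
    (2 : ℤ) ^ c * ∑ b, (if L b = 0 then (1 : ℤ) else 0) = 2 ^ n := by
  have h1 : ∀ t : V c, ∑ b, (if L b = t then (1 : ℤ) else 0) =
      ∑ b, if L b = 0 then (1 : ℤ) else 0 := by
    intro t
    obtain ⟨x, rfl⟩ := hL t
    rw [← e_row L x]
    refine Finset.sum_congr rfl fun b _ => ?_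
    unfold e
    simp only [eq_comm (a := L x)]
  have h2 : ∑ t : V c, ∑ b, (if L b = t then (1 : ℤ) else 0) = 2 ^ n := by
    rw [Finset.sum_comm]
    simp
  rw [Finset.sum_congr rfl fun t _ => h1 t, Finset.sum_const, card_V] at h2
  rw [← h2]
  simp

theorem e_total (hL : Function.Surjective L) :
    (2 : ℤ) ^ c * ∑ a, ∑ b, e L a b = 2 ^ n * 2 ^ n := by
  rw [Finset.sum_congr rfl fun a _ => e_row L a, Finset.sum_const, card_V, nsmul_eq_mul]
  have := ker_card L hL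
  push_cast
  calc (2 : ℤ) ^ c * (2 ^ n * ∑ b, (if L b = 0 then (1 : ℤ) else 0)) =
      2 ^ n * (2 ^ c * ∑ b, (if L b = 0 then (1 : ℤ) else 0)) := by ring
    _ = _ := by rw [this]

/-- the zero component -/
theorem zero_lower (hL : Function.Surjective L) (LT : V c → V n)
    (hLT : ∀ w x, LT w ⬝ᵥ x = w ⬝ᵥ L x) :
    (2 : ℤ) ^ n * (2 ^ n * (2 ^ n * 2 ^ n)) ≤ 2 ^ c * ∑ u, S F L 0 u ^ 2 := by
  obtain ⟨E, hE⟩ : ∃ E : ℤ, E = ∑ a, ∑ b, e L a b := ⟨_, rfl⟩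
  have h1 : ∀ w, S F L 0 (LT w) = E := by
    intro w
    rw [S_eq, hE]
    refine Finset.sum_congr rfl fun a _ => Finset.sum_congr rfl fun b _ => ?_
    unfold e ch
    by_cases h : L a = L b
    · rw [if_pos h, one_mul, hLT, hLT, h, zero_dotProduct, zero_dotProduct, sg_mul_self]
    · rw [if_neg h, zero_mul]
  have h2 : ∑ w, S F L 0 (LT w) ^ 2 ≤ ∑ u, S F L 0 u ^ 2 := by
    rw [← Finset.sum_image (f := fun u => S F L 0 u ^ 2) (g := LT) (s := univ)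
      (fun w _ w' _ h => LT_inj L hL LT hLT h)]
    exact Finset.sum_le_sum_of_subset_of_nonneg (Finset.subset_univ _) fun _ _ _ => sq_nonneg _
  rw [Finset.sum_congr rfl fun w _ => by rw [h1 w], Finset.sum_const, card_V, nsmul_eq_mul] at h2
  have h3 := e_total L hL
  rw [← hE] at h3
  have h4 := mul_le_mul_of_nonneg_left h2 (by positivity : (0 : ℤ) ≤ 2 ^ c)
  refine le_trans (le_of_eq ?_) h4
  push_cast
  calc (2 : ℤ) ^ n * (2 ^ n * (2 ^ n * 2 ^ n)) = (2 ^ n * 2 ^ n) * (2 ^ n * 2 ^ n) := by ring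
    _ = (2 ^ c * E) * (2 ^ c * E) := by rw [h3]
    _ = _ := by ring

/-- the inequality which has to hold when all nonzero components are better than the bound -/
theorem main (hL : Function.Surjective L) (K : ℤ) (hK : 0 < K) (hKN : 4 * K ^ 2 = 2 ^ n)
    (X : Finset (V n)) (hdiv : ∀ v : V n, v ≠ 0 → v ∉ X → ∀ u t, K ∣ P F L v u t)
    (hW : ∀ v : V n, v ≠ 0 → ∀ u, |W (fun x => v ⬝ᵥ F x) u| < 4 * K) :
    ((2 : ℤ) ^ c - 9) * 2 ^ n + 6 * 2 ^ c ≤ 14 * 2 ^ c * (X.card : ℤ) := by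
  classical
  obtain ⟨LT, hLT⟩ := exists_LT L
  obtain ⟨N, hN⟩ : ∃ N : ℤ, N = 2 ^ n := ⟨_, rfl⟩
  obtain ⟨C, hC⟩ : ∃ C : ℤ, C = 2 ^ c := ⟨_, rfl⟩
  have hN0 : 0 < N := by rw [hN]; positivity
  have hC0 : 0 < C := by rw [hC]; positivity
  have i1 := ineq1 F L
  have i2 := ineq2 F L
  have i3 := zero_lower F L hL LT hLT
  have i4 := fourth_zero F
  have i5 := e_total L hL
  -- components
  have k1 : ∀ v ∈ (univ : Finset (V n)).erase 0, 5 * ∑ u, W (fun x => v ⬝ᵥ F x) u ^ 4 ≤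
      3 * ∑ u, S F L v u ^ 2 + 26 * K ^ 2 * (N * N) +
        54 * K ^ 2 * (N * N) * (if v ∈ X then 1 else 0) := by
    intro v hv
    have hv0 : v ≠ 0 := Finset.ne_of_mem_erase hv
    rw [hN]
    by_cases hx : v ∈ X
    · rw [if_pos hx]
      have h1 := crude F v K hK (hW v hv0)
      have h2 : 0 ≤ ∑ u, S F L v u ^ 2 := Finset.sum_nonneg fun _ _ => sq_nonneg _
      linarith
    · rw [if_neg hx]
      have h1 := comp_ineq F L LT hLT v K hK (hdiv v hv0 hx) (hW v hv0)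
      linarith
  have k2 : ∀ v ∈ (univ : Finset (V n)).erase 0,
      K ^ 2 * (N * N) - K ^ 2 * (N * N) * (if v ∈ X then 1 else 0) ≤
        ∑ u, ∑ t, P F L v u t ^ 4 := by
    intro v hv
    have hv0 : v ≠ 0 := Finset.ne_of_mem_erase hv
    rw [hN]
    by_cases hx : v ∈ X
    · rw [if_pos hx]
      have h2 : 0 ≤ ∑ u, ∑ t, P F L v u t ^ 4 :=
        Finset.sum_nonneg fun _ _ => Finset.sum_nonneg fun _ _ => by positivity
      linarith
    · rw [if_neg hx]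
      have h1 := D_lower F L LT hLT v K hK (hdiv v hv0 hx)
      linarith
  have hcard : ((((univ : Finset (V n)).erase 0).card : ℕ) : ℤ) = N - 1 := by
    rw [Finset.card_erase_of_mem (Finset.mem_univ _), card_V,
      Nat.cast_sub (Nat.one_le_two_pow), hN]
    push_cast
    ring
  have hX : ∑ v ∈ (univ : Finset (V n)).erase 0, (if v ∈ X then (1 : ℤ) else 0) ≤ X.card := by
    have h1 : ∑ v ∈ (univ : Finset (V n)).erase 0, (if v ∈ X then (1 : ℤ) else 0) ≤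
        ∑ v : V n, (if v ∈ X then (1 : ℤ) else 0) :=
      Finset.sum_le_sum_of_subset_of_nonneg (Finset.subset_univ _) fun v _ _ => by
        split_ifs <;> norm_num
    refine h1.trans (le_of_eq ?_)
    simp
  have hconst : ∀ c1 : ℤ, ∑ _v ∈ (univ : Finset (V n)).erase 0, c1 = (N - 1) * c1 := by
    intro c1
    rw [Finset.sum_const, nsmul_eq_mul, hcard]
  have s1 : 5 * ∑ v ∈ (univ : Finset (V n)).erase 0, ∑ u, W (fun x => v ⬝ᵥ F x) u ^ 4 ≤
      3 * ∑ v ∈ (univ : Finset (V n)).erase 0, ∑ u, S F L v u ^ 2 +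
        (N - 1) * (26 * K ^ 2 * (N * N)) +
        54 * K ^ 2 * (N * N) * ∑ v ∈ (univ : Finset (V n)).erase 0, (if v ∈ X then (1 : ℤ) else 0) := by
    rw [← hconst, Finset.mul_sum, Finset.mul_sum (a := (3 : ℤ)),
      Finset.mul_sum (a := 54 * K ^ 2 * (N * N)), ← Finset.sum_add_distrib,
      ← Finset.sum_add_distrib]
    exact Finset.sum_le_sum k1
  have s2 : (N - 1) * (K ^ 2 * (N * N)) -
      K ^ 2 * (N * N) * ∑ v ∈ (univ : Finset (V n)).erase 0, (if v ∈ X then (1 : ℤ) else 0) ≤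
      ∑ v ∈ (univ : Finset (V n)).erase 0, ∑ u, ∑ t, P F L v u t ^ 4 := by
    rw [← hconst, Finset.mul_sum, ← Finset.sum_sub_distrib]
    exact Finset.sum_le_sum k2
  rw [← Finset.add_sum_erase _ (fun v => ∑ u, W (fun x => v ⬝ᵥ F x) u ^ 4)
    (Finset.mem_univ (0 : V n)), ← Finset.add_sum_erase _ (fun v => ∑ u, S F L v u ^ 2)
    (Finset.mem_univ (0 : V n)), ← Finset.add_sum_erase _ (fun v => ∑ u, ∑ t, P F L v u t ^ 4)
    (Finset.mem_univ (0 : V n))] at i1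
  rw [← Finset.add_sum_erase _ (fun v => ∑ u, S F L v u ^ 2)
    (Finset.mem_univ (0 : V n)), ← Finset.add_sum_erase _ (fun v => ∑ u, ∑ t, P F L v u t ^ 4)
    (Finset.mem_univ (0 : V n))] at i2
  have d0 : 0 ≤ ∑ u, ∑ t, P F L 0 u t ^ 4 :=
    Finset.sum_nonneg fun _ _ => Finset.sum_nonneg fun _ _ => by positivity
  have hsum : ∑ a : V n, ∑ b, (1 - e L a b) = N * N - ∑ a, ∑ b, e L a b := by
    simp_rw [Finset.sum_sub_distrib, Finset.sum_const, card_V]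
    rw [hN]
    simp
  rw [hsum] at i2
  rw [← hN] at i2 i3 i4 i5 hKN ⊢
  rw [← hC] at i3 i5 ⊢
  obtain ⟨E, hE⟩ : ∃ E : ℤ, E = ∑ a, ∑ b, e L a b := ⟨_, rfl⟩
  rw [← hE] at i2 i5
  obtain ⟨A, hA⟩ : ∃ A : ℤ, A = ∑ v ∈ (univ : Finset (V n)).erase 0,
    ∑ u, W (fun x => v ⬝ᵥ F x) u ^ 4 := ⟨_, rfl⟩
  obtain ⟨B, hB⟩ : ∃ B : ℤ, B = ∑ v ∈ (univ : Finset (V n)).erase 0,
    ∑ u, S F L v u ^ 2 := ⟨_, rfl⟩
  obtain ⟨D, hD⟩ : ∃ D : ℤ, D = ∑ v ∈ (univ : Finset (V n)).erase 0,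
    ∑ u, ∑ t, P F L v u t ^ 4 := ⟨_, rfl⟩
  obtain ⟨B0, hB0⟩ : ∃ B0 : ℤ, B0 = ∑ u, S F L 0 u ^ 2 := ⟨_, rfl⟩
  obtain ⟨D0, hD0⟩ : ∃ D0 : ℤ, D0 = ∑ u, ∑ t, P F L 0 u t ^ 4 := ⟨_, rfl⟩
  obtain ⟨x, hx⟩ : ∃ x : ℤ, x = ∑ v ∈ (univ : Finset (V n)).erase 0,
    (if v ∈ X then (1 : ℤ) else 0) := ⟨_, rfl⟩
  rw [← hA, ← hB, ← hx] at s1
  rw [← hD, ← hx] at s2
  rw [← hx] at hX
  rw [← hA, ← hB, ← hD, ← hB0, ← hD0, i4] at i1
  rw [← hB, ← hD, ← hB0, ← hD0] at i2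
  rw [← hB0] at i3
  rw [← hD0] at d0
  have hK2 : 0 ≤ K ^ 2 * (N * N) := by positivity
  -- combination
  have t1 : 12 * (N * N * (N * N - E)) ≤ 5 * (N * (N * (N * N))) - 3 * B0 +
      24 * (K ^ 2 * (N * N)) * (N - 1) + 56 * (K ^ 2 * (N * N)) * x := by
    nlinarith [s1, s2, i1, i2, d0]
  have t2 : 56 * (K ^ 2 * (N * N)) * x ≤ 56 * (K ^ 2 * (N * N)) * (X.card : ℤ) :=
    mul_le_mul_of_nonneg_left hX (by positivity)
  have t3 : C * (12 * (N * N * (N * N - E))) ≤ C * (5 * (N * (N * (N * N))) - 3 * B0 +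
      24 * (K ^ 2 * (N * N)) * (N - 1) + 56 * (K ^ 2 * (N * N)) * (X.card : ℤ)) :=
    mul_le_mul_of_nonneg_left (by linarith) hC0.le
  have e1 : C * (12 * (N * N * (N * N - E))) = 12 * (C - 1) * N ^ 4 := by
    calc C * (12 * (N * N * (N * N - E))) = 12 * (N * N) * (C * (N * N) - C * E) := by ring
      _ = _ := by rw [i5]; ring
  have e2 : 24 * (K ^ 2 * (N * N)) * (N - 1) = 6 * N ^ 3 * (N - 1) := by
    calc 24 * (K ^ 2 * (N * N)) * (N - 1) = 6 * (4 * K ^ 2) * (N * N) * (N - 1) := by ring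
      _ = _ := by rw [hKN]; ring
  have e3 : 56 * (K ^ 2 * (N * N)) * (X.card : ℤ) = 14 * N ^ 3 * (X.card : ℤ) := by
    calc 56 * (K ^ 2 * (N * N)) * (X.card : ℤ) = 14 * (4 * K ^ 2) * (N * N) * (X.card : ℤ) := by
          ring
      _ = _ := by rw [hKN]; ring
  rw [e1, e2, e3] at t3
  have t4 : N ^ 3 * ((C - 9) * N + 6 * C) ≤ N ^ 3 * (14 * C * (X.card : ℤ)) := by
    nlinarith [t3, i3]
  exact le_of_mul_le_mul_left t4 (by positivity)

end

end Pool.Agent.Work.MP_39d092_co.PD
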